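import Pool.Agent.W2helper50.KA.Model

/-!
# Protocols with a fixed number of messages

The two parties send messages in turn. A strategy of a party for a conversation with `n` more
messages is a query algorithm if this party sends the next message, and a function of the next
message if the other party sends it.
-/

set_option autoImplicit false

namespace Pool.Agent.W2helper50.KA

/-- `Strat I H M K n true`: the strategies, in a conversation with `n` more messages, of the party
which is the next one to make queries and to send a message (or, if `n = 0`, to make queries and to
halt with a result in `K`). `Strat I H M K n false`: the strategies of the other party, which waits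
for the next message (or, if `n = 0`, has halted with a result in `K`). -/
@[reducible] def Strat (I H M K : Type) : ℕ → Bool → Type
  | 0, true => Alg I H K
  | 0, false => K
  | n + 1, true => Alg I H (M × Strat I H M K n false)
  | n + 1, false => M → Strat I H M K n true

variable {I H M K : Type}

/-- The conversation, the result of the party which hears the last message, and the result of the
party which sends the last message, when the queries are answered by `o`. -/
def talk (o : I → H) :
    (n : ℕ) → Strat I H M K n true → Strat I H M K n false → List M × K × K
  | 0, P, k => ([], Alg.out (P : Alg I H K) o, k)
  | n + 1, P, Q =>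
    let x := Alg.out (P : Alg I H (M × Strat I H M K n false)) o
    let r := talk o n (Q x.1) x.2
    (x.1 :: r.1, r.2)

/-- `Within o q n d S c`: if the party has made `c` queries, then it makes at most `q` queries in
total, whichever messages it hears, when the queries are answered by `o`. -/
def Within (o : I → H) (q : ℕ) : (n : ℕ) → (d : Bool) → Strat I H M K n d → ℕ → Prop
  | 0, true, P, c => c + Alg.cost (P : Alg I H K) o ≤ q
  | 0, false, _, c => c ≤ q
  | n + 1, true, P, c =>
    Within o q n false (Alg.out (P : Alg I H (M × Strat I H M K n false)) o).2
      (c + Alg.cost (P : Alg I H (M × Strat I H M K n false)) o)
  | n + 1, false, Q, c => c ≤ q ∧ ∀ m : M, Within o q n true (Q m) c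

theorem Within.le {o : I → H} {q : ℕ} : ∀ {n : ℕ} {d : Bool} {S : Strat I H M K n d} {c : ℕ},
    Within o q n d S c → c ≤ q
  | 0, true, _, _, h => le_trans (Nat.le_add_right _ _) h
  | 0, false, _, _, h => h
  | n + 1, true, _, _, h => le_trans (Nat.le_add_right _ _) (Within.le (n := n) (d := false) h)
  | n + 1, false, _, _, h => h.1

end Pool.Agent.W2helper50.KA
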