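import Pool.Agent.W2helper50.KB.Main
import Pool.Agent.W2helper50.KC.Model

/-!
# The end of the conversation
-/

set_option autoImplicit false

namespace Pool.Agent.W2helper50.KC

open Finset Classical Pool.Agent.W2helper50.KA Pool.Agent.W2helper50.KB

variable {G H I K XP XQ : Type} [AddCommGroup G] [AddCommGroup H] [Fintype G] [Fintype XP]
  [Fintype XQ]

/-- Decoupling, with the coins of the parties. -/
theorem decouple_pairs (ev : I → G →+ H) (kn : List (I × H)) (SP : XP → G → Prop)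
    (qP : XP → G → List I) (SQ : XQ → G → Prop) (qQ : XQ → G → List I)
    (Ψ : XP → XQ → G → G → Prop)
    (hP : ∀ x f g, g - f ∈ Ann ev (qP x f) → qP x g = qP x f ∧ (SP x g ↔ SP x f))
    (hQ : ∀ y f g, g - f ∈ Ann ev (qQ y f) → qQ y g = qQ y f ∧ (SQ y g ↔ SQ y f))
    (hΨ : ∀ x y f f' g g', f' - f ∈ Ann ev (qP x f) → g' - g ∈ Ann ev (qQ y g) →
      (Ψ x y f' g' ↔ Ψ x y f g)) :
    cnt (fun p : XP × XQ × G => ((Cons ev kn p.2.2 ∧ SP p.1 p.2.2) ∧ SQ p.2.1 p.2.2) ∧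
      Ψ p.1 p.2.1 p.2.2 p.2.2 ∧
      Free (KN ev kn) (Ann ev (qP p.1 p.2.2)) (Ann ev (qQ p.2.1 p.2.2))) *
        Nat.card (KN ev kn) =
    cnt (fun p : (XP × G) × (XQ × G) => ((Cons ev kn p.1.2 ∧ SP p.1.1 p.1.2) ∧
      (Cons ev kn p.2.2 ∧ SQ p.2.1 p.2.2)) ∧ Ψ p.1.1 p.2.1 p.1.2 p.2.2 ∧
      Free (KN ev kn) (Ann ev (qP p.1.1 p.1.2)) (Ann ev (qQ p.2.1 p.2.2))) := by
  have e1 : cnt (fun p : (XP × G) × (XQ × G) => ((Cons ev kn p.1.2 ∧ SP p.1.1 p.1.2) ∧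
      (Cons ev kn p.2.2 ∧ SQ p.2.1 p.2.2)) ∧ Ψ p.1.1 p.2.1 p.1.2 p.2.2 ∧
      Free (KN ev kn) (Ann ev (qP p.1.1 p.1.2)) (Ann ev (qQ p.2.1 p.2.2))) =
      ∑ x, ∑ y, cnt (fun p : G × G => ((Cons ev kn p.1 ∧ SP x p.1) ∧
      (Cons ev kn p.2 ∧ SQ y p.2)) ∧ Ψ x y p.1 p.2 ∧
      Free (KN ev kn) (Ann ev (qP x p.1)) (Ann ev (qQ y p.2))) := by
    simp only [cnt_eq_sum, Fintype.sum_prod_type]
    apply sum_congr rfl
    intro r _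
    rw [sum_comm]
  rw [e1, cnt_prod, sum_mul]
  apply sum_congr rfl
  intro x _
  rw [cnt_prod, sum_mul]
  apply sum_congr rfl
  intro y _
  rw [← decouple (KN ev kn) (fun f => Ann ev (qP x f)) (fun g => Ann ev (qQ y g))
    (fun f g => ((Cons ev kn f ∧ SP x f) ∧ (Cons ev kn g ∧ SQ y g)) ∧ Ψ x y f g ∧
      Free (KN ev kn) (Ann ev (qP x f)) (Ann ev (qQ y g)))
    (by
      intro f g h
      exact (cons_iff h.1.2.1 f).1 h.1.1.1)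
    (by
      intro f g h
      exact h.2.2)
    (by
      intro f g h u hu v hv
      obtain ⟨h2, h3⟩ := hP x f (f + u) (by rw [add_sub_cancel_left]; exact hu.2)
      obtain ⟨h4, h5⟩ := hQ y g (g + v) (by rw [add_sub_cancel_left]; exact hv.2)
      refine ⟨⟨⟨⟨?_, h3.2 h.1.1.2⟩, ⟨?_, h5.2 h.1.2.2⟩⟩, ?_, ?_⟩, ?_, ?_⟩
      · rw [cons_iff h.1.1.1, add_sub_cancel_left]
        exact hu.1
      · rw [cons_iff h.1.2.1, add_sub_cancel_left]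
        exact hv.1
      · rw [hΨ x y f (f + u) g (g + v) (by rw [add_sub_cancel_left]; exact hu.2)
          (by rw [add_sub_cancel_left]; exact hv.2)]
        exact h.2.1
      · rw [h2, h4]
        exact h.2.2
      · rw [h2]
      · rw [h4])]
  congr 1
  apply cnt_congr
  intro f
  constructor
  · rintro ⟨⟨h1, h2⟩, h3⟩
    exact ⟨⟨h1, ⟨h1.1, h2⟩⟩, h3⟩
  · rintro ⟨⟨h1, ⟨_, h2⟩⟩, h3⟩
    exact ⟨⟨h1, h2⟩, h3⟩

theorem exists_argmin [Nonempty K] (φ : K → ℕ) : ∃ b, ∀ b', φ b ≤ φ b' := by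
  obtain ⟨b, hb⟩ := Nat.sInf_mem (Set.range_nonempty φ)
  refine ⟨b, fun b' => ?_⟩
  rw [hb]
  exact Nat.sInf_le ⟨b', rfl⟩

theorem base_aux [Nonempty K] (ev : I → G →+ H) (kn : List (I × H)) (SP : XP → G → Prop)
    (qP : XP → G → List I) (kP : XP → G → K) (SQ : XQ → G → Prop) (qQ : XQ → G → List I)
    (kQ : XQ → G → K) (q h : ℕ)
    (hP : ∀ x f g, g - f ∈ Ann ev (qP x f) →
      qP x g = qP x f ∧ (SP x g ↔ SP x f) ∧ kP x g = kP x f)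
    (hQ : ∀ y f g, g - f ∈ Ann ev (qQ y f) →
      qQ y g = qQ y f ∧ (SQ y g ↔ SQ y f) ∧ kQ y g = kQ y f)
    (hlen : ∀ x f, (qP x f).length ≤ q)
    (hh : ∀ W : List I, W.length ≤ q → hits ev SQ qQ kn W ≤ h) :
    ∃ b : K,
      Nat.card (KN ev kn) * cnt (fun p : XP × XQ × G =>
        ((Cons ev kn p.2.2 ∧ SP p.1 p.2.2) ∧ SQ p.2.1 p.2.2) ∧ b ≠ kQ p.2.1 p.2.2) +
      cnt (fun p : XP × G => Cons ev kn p.2 ∧ SP p.1 p.2) *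
        cnt (fun p : XQ × G => Cons ev kn p.2 ∧ SQ p.1 p.2) ≤
      Nat.card (KN ev kn) * cnt (fun p : XP × XQ × G =>
        ((Cons ev kn p.2.2 ∧ SP p.1 p.2.2) ∧ SQ p.2.1 p.2.2) ∧
          kP p.1 p.2.2 ≠ kQ p.2.1 p.2.2) +
      Nat.card (KN ev kn) * cnt (fun p : XP × XQ × G =>
        (Cons ev kn p.2.2 ∧ SP p.1 p.2.2) ∧ SQ p.2.1 p.2.2) +
      2 * (cnt (fun p : XP × G => Cons ev kn p.2 ∧ SP p.1 p.2) * h) := by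
  obtain ⟨b, hb⟩ := exists_argmin (fun b : K =>
    cnt (fun p : XQ × G => (Cons ev kn p.2 ∧ SQ p.1 p.2) ∧ ¬ b = kQ p.1 p.2))
  -- the right guess is at least as frequent
  have hb' : ∀ b' : K, cnt (fun p : XQ × G => (Cons ev kn p.2 ∧ SQ p.1 p.2) ∧ b' = kQ p.1 p.2) ≤
      cnt (fun p : XQ × G => (Cons ev kn p.2 ∧ SQ p.1 p.2) ∧ b = kQ p.1 p.2) := by
    intro b'
    have h1 := cnt_split (fun p : XQ × G => Cons ev kn p.2 ∧ SQ p.1 p.2)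
      (fun p => b' = kQ p.1 p.2)
    have h2 := cnt_split (fun p : XQ × G => Cons ev kn p.2 ∧ SQ p.1 p.2)
      (fun p => b = kQ p.1 p.2)
    have h3 := hb b'
    omega
  refine ⟨b, ?_⟩
  have d1 := decouple_pairs ev kn SP qP SQ qQ (fun _ y _ g => b = kQ y g)
    (fun x f g h1 => ⟨(hP x f g h1).1, (hP x f g h1).2.1⟩)
    (fun y f g h1 => ⟨(hQ y f g h1).1, (hQ y f g h1).2.1⟩)
    (by
      intro x y f f' g g' _ h2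
      rw [(hQ y g g' h2).2.2])
  have d2 := decouple_pairs ev kn SP qP SQ qQ (fun x y f g => kP x f ≠ kQ y g)
    (fun x f g h1 => ⟨(hP x f g h1).1, (hP x f g h1).2.1⟩)
    (fun y f g h1 => ⟨(hQ y f g h1).1, (hQ y f g h1).2.1⟩)
    (by
      intro x y f f' g g' h1 h2
      rw [(hQ y g g' h2).2.2, (hP x f f' h1).2.2])
  -- the real executions
  have r1 : cnt (fun p : XP × XQ × G =>
        ((Cons ev kn p.2.2 ∧ SP p.1 p.2.2) ∧ SQ p.2.1 p.2.2) ∧ b ≠ kQ p.2.1 p.2.2) +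
      cnt (fun p : XP × XQ × G => ((Cons ev kn p.2.2 ∧ SP p.1 p.2.2) ∧ SQ p.2.1 p.2.2) ∧
      b = kQ p.2.1 p.2.2 ∧
      Free (KN ev kn) (Ann ev (qP p.1 p.2.2)) (Ann ev (qQ p.2.1 p.2.2))) ≤
      cnt (fun p : XP × XQ × G => (Cons ev kn p.2.2 ∧ SP p.1 p.2.2) ∧ SQ p.2.1 p.2.2) := by
    rw [cnt_split (fun p : XP × XQ × G => (Cons ev kn p.2.2 ∧ SP p.1 p.2.2) ∧ SQ p.2.1 p.2.2)
      (fun p => b = kQ p.2.1 p.2.2), add_comm]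
    exact Nat.add_le_add_right (cnt_mono fun p h1 => ⟨h1.1, h1.2.1⟩) _
  have r2 : cnt (fun p : XP × XQ × G => ((Cons ev kn p.2.2 ∧ SP p.1 p.2.2) ∧ SQ p.2.1 p.2.2) ∧
      kP p.1 p.2.2 ≠ kQ p.2.1 p.2.2 ∧
      Free (KN ev kn) (Ann ev (qP p.1 p.2.2)) (Ann ev (qQ p.2.1 p.2.2))) ≤
      cnt (fun p : XP × XQ × G => ((Cons ev kn p.2.2 ∧ SP p.1 p.2.2) ∧ SQ p.2.1 p.2.2) ∧
          kP p.1 p.2.2 ≠ kQ p.2.1 p.2.2) :=
    cnt_mono fun p h1 => ⟨h1.1, h1.2.1⟩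
  -- two independent parties
  have hF : cnt (fun p : (XP × G) × (XQ × G) => ((Cons ev kn p.1.2 ∧ SP p.1.1 p.1.2) ∧
      (Cons ev kn p.2.2 ∧ SQ p.2.1 p.2.2)) ∧
      ¬ Free (KN ev kn) (Ann ev (qP p.1.1 p.1.2)) (Ann ev (qQ p.2.1 p.2.2))) ≤
      cnt (fun p : XP × G => Cons ev kn p.2 ∧ SP p.1 p.2) * h := by
    rw [cnt_prod, cnt_eq_sum (fun p : XP × G => _), sum_mul]
    apply sum_le_sum
    rintro ⟨x, f⟩ _
    dsimp only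
    split_ifs with hg
    · rw [one_mul]
      refine le_trans (cnt_mono ?_) (hh (qP x f) (hlen x f))
      rintro ⟨y, g⟩ h1
      exact ⟨h1.1.2.1, h1.1.2.2, fun h2 => h1.2 h2.symm⟩
    · rw [zero_mul, Nat.le_zero]
      apply cnt_false
      intro p h1
      exact hg h1.1.1
  have p1 : cnt (fun p : (XP × G) × (XQ × G) => ((Cons ev kn p.1.2 ∧ SP p.1.1 p.1.2) ∧
      (Cons ev kn p.2.2 ∧ SQ p.2.1 p.2.2)) ∧ b = kQ p.2.1 p.2.2) ≤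
      cnt (fun p : (XP × G) × (XQ × G) => ((Cons ev kn p.1.2 ∧ SP p.1.1 p.1.2) ∧
      (Cons ev kn p.2.2 ∧ SQ p.2.1 p.2.2)) ∧ b = kQ p.2.1 p.2.2 ∧
      Free (KN ev kn) (Ann ev (qP p.1.1 p.1.2)) (Ann ev (qQ p.2.1 p.2.2))) +
      cnt (fun p : (XP × G) × (XQ × G) => ((Cons ev kn p.1.2 ∧ SP p.1.1 p.1.2) ∧
      (Cons ev kn p.2.2 ∧ SQ p.2.1 p.2.2)) ∧
      ¬ Free (KN ev kn) (Ann ev (qP p.1.1 p.1.2)) (Ann ev (qQ p.2.1 p.2.2))) := by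
    rw [cnt_split _ (fun p : (XP × G) × (XQ × G) =>
      Free (KN ev kn) (Ann ev (qP p.1.1 p.1.2)) (Ann ev (qQ p.2.1 p.2.2)))]
    exact Nat.add_le_add (cnt_mono fun p h1 => ⟨h1.1.1, h1.1.2, h1.2⟩)
      (cnt_mono fun p h1 => ⟨h1.1.1, h1.2⟩)
  have p2 : cnt (fun p : (XP × G) × (XQ × G) => ((Cons ev kn p.1.2 ∧ SP p.1.1 p.1.2) ∧
      (Cons ev kn p.2.2 ∧ SQ p.2.1 p.2.2)) ∧ kP p.1.1 p.1.2 ≠ kQ p.2.1 p.2.2) ≤
      cnt (fun p : (XP × G) × (XQ × G) => ((Cons ev kn p.1.2 ∧ SP p.1.1 p.1.2) ∧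
      (Cons ev kn p.2.2 ∧ SQ p.2.1 p.2.2)) ∧ kP p.1.1 p.1.2 ≠ kQ p.2.1 p.2.2 ∧
      Free (KN ev kn) (Ann ev (qP p.1.1 p.1.2)) (Ann ev (qQ p.2.1 p.2.2))) +
      cnt (fun p : (XP × G) × (XQ × G) => ((Cons ev kn p.1.2 ∧ SP p.1.1 p.1.2) ∧
      (Cons ev kn p.2.2 ∧ SQ p.2.1 p.2.2)) ∧
      ¬ Free (KN ev kn) (Ann ev (qP p.1.1 p.1.2)) (Ann ev (qQ p.2.1 p.2.2))) := by
    rw [cnt_split _ (fun p : (XP × G) × (XQ × G) =>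
      Free (KN ev kn) (Ann ev (qP p.1.1 p.1.2)) (Ann ev (qQ p.2.1 p.2.2)))]
    exact Nat.add_le_add (cnt_mono fun p h1 => ⟨h1.1.1, h1.1.2, h1.2⟩)
      (cnt_mono fun p h1 => ⟨h1.1.1, h1.2⟩)
  have p3 : cnt (fun p : XP × G => Cons ev kn p.2 ∧ SP p.1 p.2) *
        cnt (fun p : XQ × G => Cons ev kn p.2 ∧ SQ p.1 p.2) ≤
      cnt (fun p : (XP × G) × (XQ × G) => ((Cons ev kn p.1.2 ∧ SP p.1.1 p.1.2) ∧
      (Cons ev kn p.2.2 ∧ SQ p.2.1 p.2.2)) ∧ b = kQ p.2.1 p.2.2) +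
      cnt (fun p : (XP × G) × (XQ × G) => ((Cons ev kn p.1.2 ∧ SP p.1.1 p.1.2) ∧
      (Cons ev kn p.2.2 ∧ SQ p.2.1 p.2.2)) ∧ kP p.1.1 p.1.2 ≠ kQ p.2.1 p.2.2) := by
    rw [cnt_prod (fun p : (XP × G) × (XQ × G) => _), cnt_prod (fun p : (XP × G) × (XQ × G) => _),
      cnt_eq_sum (fun p : XP × G => _), sum_mul, ← sum_add_distrib]
    apply sum_le_sum
    rintro ⟨x, f⟩ _
    dsimp only
    split_ifs with hg
    · rw [one_mul, cnt_split (fun p : XQ × G => Cons ev kn p.2 ∧ SQ p.1 p.2)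
        (fun p => kP x f = kQ p.1 p.2)]
      apply Nat.add_le_add
      · refine (hb' (kP x f)).trans (cnt_mono ?_)
        rintro ⟨y, g⟩ h1
        exact ⟨⟨hg, h1.1⟩, h1.2⟩
      · apply cnt_mono
        rintro ⟨y, g⟩ h1
        exact ⟨⟨hg, h1.1⟩, h1.2⟩
    · simp
  generalize cnt (fun p : XP × XQ × G =>
        ((Cons ev kn p.2.2 ∧ SP p.1 p.2.2) ∧ SQ p.2.1 p.2.2) ∧ b ≠ kQ p.2.1 p.2.2) = RE at *
  generalize cnt (fun p : XP × XQ × G => ((Cons ev kn p.2.2 ∧ SP p.1 p.2.2) ∧ SQ p.2.1 p.2.2) ∧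
      b = kQ p.2.1 p.2.2 ∧
      Free (KN ev kn) (Ann ev (qP p.1 p.2.2)) (Ann ev (qQ p.2.1 p.2.2))) = a1 at *
  generalize cnt (fun p : XP × XQ × G => (Cons ev kn p.2.2 ∧ SP p.1 p.2.2) ∧
    SQ p.2.1 p.2.2) = M at *
  generalize cnt (fun p : XP × XQ × G => ((Cons ev kn p.2.2 ∧ SP p.1 p.2.2) ∧ SQ p.2.1 p.2.2) ∧
      kP p.1 p.2.2 ≠ kQ p.2.1 p.2.2 ∧
      Free (KN ev kn) (Ann ev (qP p.1 p.2.2)) (Ann ev (qQ p.2.1 p.2.2))) = a2 at *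
  generalize cnt (fun p : XP × XQ × G => ((Cons ev kn p.2.2 ∧ SP p.1 p.2.2) ∧ SQ p.2.1 p.2.2) ∧
          kP p.1 p.2.2 ≠ kQ p.2.1 p.2.2) = RB at *
  generalize cnt (fun p : (XP × G) × (XQ × G) => ((Cons ev kn p.1.2 ∧ SP p.1.1 p.1.2) ∧
      (Cons ev kn p.2.2 ∧ SQ p.2.1 p.2.2)) ∧
      ¬ Free (KN ev kn) (Ann ev (qP p.1.1 p.1.2)) (Ann ev (qQ p.2.1 p.2.2))) = c0 at *
  generalize cnt (fun p : (XP × G) × (XQ × G) => ((Cons ev kn p.1.2 ∧ SP p.1.1 p.1.2) ∧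
      (Cons ev kn p.2.2 ∧ SQ p.2.1 p.2.2)) ∧ b = kQ p.2.1 p.2.2 ∧
      Free (KN ev kn) (Ann ev (qP p.1.1 p.1.2)) (Ann ev (qQ p.2.1 p.2.2))) = c1 at *
  generalize cnt (fun p : (XP × G) × (XQ × G) => ((Cons ev kn p.1.2 ∧ SP p.1.1 p.1.2) ∧
      (Cons ev kn p.2.2 ∧ SQ p.2.1 p.2.2)) ∧ kP p.1.1 p.1.2 ≠ kQ p.2.1 p.2.2 ∧
      Free (KN ev kn) (Ann ev (qP p.1.1 p.1.2)) (Ann ev (qQ p.2.1 p.2.2))) = c2 at *
  generalize cnt (fun p : (XP × G) × (XQ × G) => ((Cons ev kn p.1.2 ∧ SP p.1.1 p.1.2) ∧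
      (Cons ev kn p.2.2 ∧ SQ p.2.1 p.2.2)) ∧ b = kQ p.2.1 p.2.2) = e1 at *
  generalize cnt (fun p : (XP × G) × (XQ × G) => ((Cons ev kn p.1.2 ∧ SP p.1.1 p.1.2) ∧
      (Cons ev kn p.2.2 ∧ SQ p.2.1 p.2.2)) ∧ kP p.1.1 p.1.2 ≠ kQ p.2.1 p.2.2) = e2 at *
  generalize cnt (fun p : XP × G => Cons ev kn p.2 ∧ SP p.1 p.2) = nP at *
  generalize cnt (fun p : XQ × G => Cons ev kn p.2 ∧ SQ p.1 p.2) = nQ at *
  generalize Nat.card (KN ev kn) = k at *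
  have q1 : k * RE + a1 * k ≤ k * M := by
    calc k * RE + a1 * k = k * (RE + a1) := by ring
      _ ≤ k * M := Nat.mul_le_mul_left _ r1
  have q2 : a2 * k ≤ k * RB := by
    rw [mul_comm]
    exact Nat.mul_le_mul_left _ r2
  omega

end Pool.Agent.W2helper50.KC
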