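import Pool.Agent.W2helper50.KC.Model

/-!
# Conversations of two parties
-/

set_option autoImplicit false

namespace Pool.Agent.W2helper50.KA

variable {I H M K : Type}

/-- The conversation (the list of the `n` messages), the result of the first party and the result of
the second party, when the queries are answered by `o`. The first party sends the first message. -/
def converse (o : I → H) :
    (n : ℕ) → Strat I H M K n true → Strat I H M K n false → List M × K × K
  | 0, P, k => ([], Alg.out (P : Alg I H K) o, k)
  | n + 1, P, Q =>
    let x := Alg.out (P : Alg I H (M × Strat I H M K n false)) o
    let r := converse o n (Q x.1) x.2
    (x.1 :: r.1, r.2.2, r.2.1)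

/-- The conversation, the result of the party with the strategy `P` and the result of the party with
the strategy `Q`. The party with the strategy `P` sends the first message if `d` is `true`, the
other party sends it if `d` is `false`. -/
def play (o : I → H) (n : ℕ) :
    (d : Bool) → Strat I H M K n d → Strat I H M K n (!d) → List M × K × K
  | true, P, Q => converse o n P Q
  | false, P, Q =>
    let r := converse o n Q P
    (r.1, r.2.2, r.2.1)

end Pool.Agent.W2helper50.KA
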