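import Pool.Agent.W2helper50.KC.Base

/-!
# The attack on key agreement with errors
-/

set_option autoImplicit false

namespace Pool.Agent.W2helper50.KC

open Finset Classical Pool.Agent.W2helper50.KA Pool.Agent.W2helper50.KB

/-- The size of the sets of queries which Eve considers when there are `n` more messages. -/
def size (q L n : ℕ) : ℕ := q * L ^ n

/-- The number of the queries of Eve. -/
def total (q L : ℕ) : ℕ → ℕ
  | 0 => 0
  | n + 1 => L * size q L n + total q L n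

theorem cnt_swap {α β γ : Type} [Fintype α] [Fintype β] [Fintype γ] (P : α × β × γ → Prop) :
    cnt P = cnt (fun p : β × α × γ => P (p.2.1, p.1, p.2.2)) := by
  simp only [cnt_eq_sum, Fintype.sum_prod_type]
  rw [sum_comm]

section

variable {XP XQ G : Type} [Fintype XP] [Fintype XQ] [Fintype G]

theorem swap_le (c : G → Prop) (po : XP → G → Prop) (sq fq : XQ → G → Prop)
    (W : XP → XQ → G → Prop) :
    cnt (fun p : XP × XQ × G => ((c p.2.2 ∧ po p.1 p.2.2) ∧ sq p.2.1 p.2.2) ∧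
      W p.1 p.2.1 p.2.2) ≤
    cnt (fun p : XQ × XP × G => ((c p.2.2 ∧ (sq p.1 p.2.2 ∧ fq p.1 p.2.2)) ∧
      po p.2.1 p.2.2) ∧ W p.2.1 p.1 p.2.2) +
    cnt (fun p : XP × XQ × G => ((c p.2.2 ∧ po p.1 p.2.2) ∧ sq p.2.1 p.2.2) ∧
      ¬ fq p.2.1 p.2.2) := by
  rw [cnt_split _ (fun p : XP × XQ × G => fq p.2.1 p.2.2)]
  apply Nat.add_le_add
  · rw [cnt_swap]
    apply cnt_mono
    rintro p ⟨⟨⟨⟨h1, h2⟩, h3⟩, h4⟩, h5⟩
    exact ⟨⟨⟨h1, h3, h5⟩, h2⟩, h4⟩
  · apply cnt_mono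
    rintro p ⟨⟨h1, h2⟩, h3⟩
    exact ⟨h1, h3⟩

theorem swap_ge (c : G → Prop) (po : XP → G → Prop) (sq fq : XQ → G → Prop)
    (W : XP → XQ → G → Prop) :
    cnt (fun p : XQ × XP × G => ((c p.2.2 ∧ (sq p.1 p.2.2 ∧ fq p.1 p.2.2)) ∧
      po p.2.1 p.2.2) ∧ W p.2.1 p.1 p.2.2) ≤
    cnt (fun p : XP × XQ × G => ((c p.2.2 ∧ po p.1 p.2.2) ∧ sq p.2.1 p.2.2) ∧
      W p.1 p.2.1 p.2.2) := by
  rw [cnt_swap]
  apply cnt_mono
  rintro p ⟨⟨⟨h1, h3, h5⟩, h2⟩, h4⟩
  exact ⟨⟨⟨h1, h2⟩, h3⟩, h4⟩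

theorem swap_eq (c : G → Prop) (po : XP → G → Prop) (sq fq : XQ → G → Prop) :
    cnt (fun p : XP × XQ × G => (c p.2.2 ∧ po p.1 p.2.2) ∧ sq p.2.1 p.2.2) =
    cnt (fun p : XQ × XP × G => (c p.2.2 ∧ (sq p.1 p.2.2 ∧ fq p.1 p.2.2)) ∧
      po p.2.1 p.2.2) +
    cnt (fun p : XP × XQ × G => ((c p.2.2 ∧ po p.1 p.2.2) ∧ sq p.2.1 p.2.2) ∧
      ¬ fq p.2.1 p.2.2) := by
  rw [cnt_split _ (fun p : XP × XQ × G => fq p.2.1 p.2.2)]
  congr 1
  rw [cnt_swap]
  apply cnt_congr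
  rintro p
  constructor
  · rintro ⟨⟨⟨h1, h2⟩, h3⟩, h5⟩
    exact ⟨⟨h1, h3, h5⟩, h2⟩
  · rintro ⟨⟨h1, h3, h5⟩, h2⟩
    exact ⟨⟨⟨h1, h2⟩, h3⟩, h5⟩

theorem arith {L k k' RE RB M lost REt RBt Mt nQ nF nQ' nP' h h' a : ℕ} (hk' : 0 < k')
    (hF : nQ' * k = nF * k')
    (hIH : L * (k' * RE) + L * (nQ' * nP') ≤
      L * (k' * RB) + L * (k' * M) + a * (nQ' * nP') + 2 * L * (nQ' * h'))
    (h1 : nF ≤ nQ) (h2 : nQ ≤ nF + h) (e1 : REt ≤ RE + lost) (e2 : RB ≤ RBt)
    (e3 : Mt = M + lost) :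
    L * (k * REt) + L * (nP' * nQ) ≤
      L * (k * RBt) + L * (k * Mt) + a * (nP' * nQ) + 2 * L * (nQ * h') + L * (nP' * h) := by
  have h3 : L * k * RE + L * nF * nP' ≤
      L * k * RB + L * k * M + a * nF * nP' + 2 * L * nF * h' := by
    apply Nat.le_of_mul_le_mul_left _ hk'
    calc k' * (L * k * RE + L * nF * nP') = L * (k' * RE) * k + L * (nF * k') * nP' := by ring
      _ = (L * (k' * RE) + L * (nQ' * nP')) * k := by rw [← hF]; ring
      _ ≤ (L * (k' * RB) + L * (k' * M) + a * (nQ' * nP') + 2 * L * (nQ' * h')) * k :=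
        Nat.mul_le_mul_right _ hIH
      _ = L * (k' * RB) * k + L * (k' * M) * k + a * (nQ' * k) * nP' + 2 * L * (nQ' * k) * h' := by
        ring
      _ = k' * (L * k * RB + L * k * M + a * nF * nP' + 2 * L * nF * h') := by rw [hF]; ring
  subst e3
  calc L * (k * REt) + L * (nP' * nQ) ≤ L * (k * (RE + lost)) + L * (nP' * (nF + h)) :=
        Nat.add_le_add (Nat.mul_le_mul_left _ (Nat.mul_le_mul_left _ e1))
          (Nat.mul_le_mul_left _ (Nat.mul_le_mul_left _ h2))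
    _ = (L * k * RE + L * nF * nP') + L * k * lost + L * nP' * h := by ring
    _ ≤ (L * k * RB + L * k * M + a * nF * nP' + 2 * L * nF * h') + L * k * lost +
        L * nP' * h := Nat.add_le_add_right (Nat.add_le_add_right h3 _) _
    _ ≤ (L * k * RBt + L * k * M + a * nQ * nP' + 2 * L * nQ * h') + L * k * lost +
        L * nP' * h := by
      apply Nat.add_le_add_right
      apply Nat.add_le_add_right
      apply Nat.add_le_add
      · apply Nat.add_le_add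
        · exact Nat.add_le_add_right (Nat.mul_le_mul_left _ e2) _
        · exact Nat.mul_le_mul_right _ (Nat.mul_le_mul_left _ h1)
      · exact Nat.mul_le_mul_right _ (Nat.mul_le_mul_left _ h1)
    _ = _ := by ring

end

section

variable {G H I X : Type} [AddCommGroup G] [AddCommGroup H] [Fintype G] [Fintype X]

theorem free_part (ev : I → G →+ H) (kn new : List (I × H)) (f₁ : G)
    (h₁ : Cons ev (kn ++ new) f₁) (SQ : X → G → Prop) (qQ : X → G → List I)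
    (hQ : ∀ y f g, g - f ∈ Ann ev (qQ y f) → qQ y g = qQ y f ∧ (SQ y g ↔ SQ y f)) :
    cnt (fun p : X × G => Cons ev (kn ++ new) p.2 ∧ SQ p.1 p.2 ∧
        Free (KN ev kn) (Ann ev (qQ p.1 p.2)) (Ann ev (new.map Prod.fst))) *
          Nat.card (KN ev kn) =
      cnt (fun p : X × G => Cons ev kn p.2 ∧ SQ p.1 p.2 ∧
        Free (KN ev kn) (Ann ev (qQ p.1 p.2)) (Ann ev (new.map Prod.fst))) *
          Nat.card (KN ev (kn ++ new)) := by
  obtain ⟨W, hW⟩ : ∃ W, W = new.map Prod.fst := ⟨_, rfl⟩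
  rw [← hW]
  have hK₂ : KN ev (kn ++ new) = KN ev kn ⊓ Ann ev W := by
    rw [KN_append, hW]
    rfl
  rw [cnt_prod, cnt_prod, sum_mul, sum_mul]
  apply sum_congr rfl
  intro r _
  have h1 := decouple (KN ev kn) (fun f => Ann ev (qQ r f)) (fun _ => Ann ev W)
    (fun f g => (Cons ev kn f ∧ SQ r f ∧ Free (KN ev kn) (Ann ev (qQ r f)) (Ann ev W)) ∧
      Cons ev (kn ++ new) g)
    (by
      intro f g h
      exact (cons_iff (cons_append.1 h.2).1 f).1 h.1.1)
    (by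
      intro f g h
      exact h.1.2.2)
    (by
      intro f g h u hu v hv
      obtain ⟨h2, h3⟩ := hQ r f (f + u) (by rw [add_sub_cancel_left]; exact hu.2)
      refine ⟨⟨⟨?_, ?_, ?_⟩, ?_⟩, ?_, rfl⟩
      · rw [cons_iff h.1.1, add_sub_cancel_left]
        exact hu.1
      · exact h3.2 h.1.2.1
      · rw [h2]
        exact h.1.2.2
      · rw [cons_iff h.2, add_sub_cancel_left, hK₂]
        exact hv
      · rw [h2])
  have h1' := h1.trans (cnt_pair (fun f => Cons ev kn f ∧ SQ r f ∧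
    Free (KN ev kn) (Ann ev (qQ r f)) (Ann ev W)) (Cons ev (kn ++ new)))
  rw [cnt_cons h₁] at h1'
  refine Eq.trans ?_ h1'
  congr 1
  apply cnt_congr
  intro f
  constructor
  · rintro ⟨h2, h3, h4⟩
    exact ⟨⟨(cons_append.1 h2).1, h3, h4⟩, h2⟩
  · rintro ⟨⟨_, h3, h4⟩, h2⟩
    exact ⟨h2, h3, h4⟩

end

variable {G H I M K : Type} [AddCommGroup G] [AddCommGroup H] [Fintype G] [Finite H] [Nonempty K]

/-- The claim for `n` more messages. -/
def Claim (ev : I → G →+ H) (M K : Type) (q L n : ℕ) : Prop :=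
  ∀ (XP XQ : Type) [Fintype XP] [Fintype XQ] (kn : List (I × H)) (f₀ : G) (_ : Cons ev kn f₀)
    (SP : XP → G → Prop) (qP : XP → G → List I) (σP : XP → G → Strat I H M K n true)
    (SQ : XQ → G → Prop) (qQ : XQ → G → List I) (σQ : XQ → G → Strat I H M K n false) (h : ℕ)
    (_ : ∀ x f g, g - f ∈ Ann ev (qP x f) →
      qP x g = qP x f ∧ (SP x g ↔ SP x f) ∧ σP x g = σP x f)
    (_ : ∀ y f g, g - f ∈ Ann ev (qQ y f) →
      qQ y g = qQ y f ∧ (SQ y g ↔ SQ y f) ∧ σQ y g = σQ y f)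
    (_ : ∀ x f, Within (fun i => ev i f) q n true (σP x f) (qP x f).length)
    (_ : ∀ y f, Within (fun i => ev i f) q n false (σQ y f) (qQ y f).length)
    (_ : ∀ W : List I, W.length ≤ size q L n → hits ev SQ qQ kn W ≤ h),
    ∃ Eve : List M → Alg I H K,
      (∀ t f, (Eve t).cost (fun i => ev i f) ≤ total q L n) ∧
      L * (Nat.card (KN ev kn) * cnt (fun p : XP × XQ × G =>
        ((Cons ev kn p.2.2 ∧ SP p.1 p.2.2) ∧ SQ p.2.1 p.2.2) ∧
        (Eve (talk (fun i => ev i p.2.2) n (σP p.1 p.2.2) (σQ p.2.1 p.2.2)).1).out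
          (fun i => ev i p.2.2) ≠
        (talk (fun i => ev i p.2.2) n (σP p.1 p.2.2) (σQ p.2.1 p.2.2)).2.2)) +
      L * (cnt (fun p : XP × G => Cons ev kn p.2 ∧ SP p.1 p.2) *
        cnt (fun p : XQ × G => Cons ev kn p.2 ∧ SQ p.1 p.2)) ≤
      L * (Nat.card (KN ev kn) * cnt (fun p : XP × XQ × G =>
        ((Cons ev kn p.2.2 ∧ SP p.1 p.2.2) ∧ SQ p.2.1 p.2.2) ∧
        (talk (fun i => ev i p.2.2) n (σP p.1 p.2.2) (σQ p.2.1 p.2.2)).2.1 ≠
        (talk (fun i => ev i p.2.2) n (σP p.1 p.2.2) (σQ p.2.1 p.2.2)).2.2)) +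
      L * (Nat.card (KN ev kn) * cnt (fun p : XP × XQ × G =>
        (Cons ev kn p.2.2 ∧ SP p.1 p.2.2) ∧ SQ p.2.1 p.2.2)) +
      2 * n * (q * Nat.clog 2 (Nat.card H)) *
        (cnt (fun p : XP × G => Cons ev kn p.2 ∧ SP p.1 p.2) *
        cnt (fun p : XQ × G => Cons ev kn p.2 ∧ SQ p.1 p.2)) +
      2 * L * (cnt (fun p : XP × G => Cons ev kn p.2 ∧ SP p.1 p.2) * h)

omit [Finite H] in
theorem claim_zero (ev : I → G →+ H) (q L : ℕ) : Claim ev M K q L 0 := by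
  intro XP XQ _ _ kn f₀ _ SP qP σP SQ qQ σQ h hP hQ hWP hWQ hh
  obtain ⟨b, hb⟩ := base_aux ev kn SP
    (fun x f => qP x f ++ qs (σP x f : Alg I H K) (fun i => ev i f))
    (fun x f => Alg.out (σP x f : Alg I H K) (fun i => ev i f)) SQ qQ σQ q h
    (by
      intro x f g h1
      rw [Ann_append] at h1
      obtain ⟨h2, h3, h4⟩ := hP x f g h1.1
      obtain ⟨h5, h6⟩ := qs_congr_ann ev (σP x f : Alg I H K) h1.2
      rw [h2, h4, h5, h6]
      exact ⟨rfl, h3, rfl⟩)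
    hQ
    (by
      intro x f
      rw [List.length_append, length_qs]
      exact hWP x f)
    (by
      intro W hW
      exact hh W (by rw [size, pow_zero, mul_one]; exact hW))
  refine ⟨fun _ => .done b, fun t f => by simp [Alg.cost], ?_⟩
  have h1 := Nat.mul_le_mul_left L hb
  simp only [mul_add] at h1
  simp only [talk, Alg.out, mul_zero, zero_mul, add_zero]
  calc _ ≤ _ := h1
    _ = _ := by ring

theorem claim_succ (ev : I → G →+ H) (q L n : ℕ) (hL : 0 < L) (ih : Claim ev M K q L n) :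
    Claim ev M K q L (n + 1) := by
  intro XP XQ _ _ kn f₀ hf₀ SP qP σP SQ qQ σQ h hP hQ hWP hWQ hh
  obtain ⟨msg, hmsg⟩ : ∃ msg : XP → G → M, msg = fun x f =>
    (Alg.out (σP x f : Alg I H (M × Strat I H M K n false)) (fun i => ev i f)).1 := ⟨_, rfl⟩
  obtain ⟨τP, hτP⟩ : ∃ τP : XP → G → Strat I H M K n false, τP = fun x f =>
    (Alg.out (σP x f : Alg I H (M × Strat I H M K n false)) (fun i => ev i f)).2 := ⟨_, rfl⟩
  obtain ⟨qP', hqP'⟩ : ∃ qP' : XP → G → List I, qP' = fun x f =>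
    qP x f ++ qs (σP x f : Alg I H (M × Strat I H M K n false)) (fun i => ev i f) := ⟨_, rfl⟩
  obtain ⟨pop, hpop⟩ : ∃ pop : M → XP → G → Prop, pop = fun m x f => SP x f ∧ msg x f = m :=
    ⟨_, rfl⟩
  have htalk : ∀ x y f, talk (fun i => ev i f) (n + 1) (σP x f) (σQ y f) =
      (msg x f :: (talk (fun i => ev i f) n (σQ y f (msg x f)) (τP x f)).1,
        (talk (fun i => ev i f) n (σQ y f (msg x f)) (τP x f)).2) := by
    intro x y f
    rw [hmsg, hτP]
    rfl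
  have hP' : ∀ x f g, g - f ∈ Ann ev (qP' x f) → qP' x g = qP' x f ∧ (SP x g ↔ SP x f) ∧
      msg x g = msg x f ∧ τP x g = τP x f := by
    intro x f g h1
    rw [hqP', Ann_append] at h1
    obtain ⟨h2, h3, h4⟩ := hP x f g h1.1
    obtain ⟨h5, h6⟩ := qs_congr_ann ev (σP x f : Alg I H (M × Strat I H M K n false)) h1.2
    rw [hqP', hmsg, hτP]
    simp only [h2, h4, h5, h6]
    exact ⟨trivial, h3, trivial, trivial⟩
  have hlen' : ∀ x f, (qP' x f).length ≤ q := by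
    intro x f
    have h1 : Within (fun i => ev i f) q n false (τP x f) (qP' x f).length := by
      have h2 := hWP x f
      rw [hqP', hτP, List.length_append, length_qs]
      exact h2
    exact h1.le
  choose T hT1 hT2 hT3 hT4 using fun m : M =>
    stage ev (pop m) qP' (size q L n) q L hlen' hL kn
  obtain ⟨FQ, hFQ⟩ : ∃ FQ : List (I × H) → XQ → G → Prop, FQ = fun t y f =>
    Free (KN ev kn) (Ann ev (qQ y f)) (Ann ev ((t.drop kn.length).map Prod.fst)) := ⟨_, rfl⟩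
  -- the induction hypothesis
  have hIH : ∀ (m : M) (t : List (I × H)), ∃ Eve' : List M → Alg I H K,
      (∀ t' f, (Eve' t').cost (fun i => ev i f) ≤ total q L n) ∧
      ((∃ f₁, Cons ev t f₁) →
      L * (Nat.card (KN ev t) * cnt (fun p : XQ × XP × G =>
        ((Cons ev t p.2.2 ∧ (SQ p.1 p.2.2 ∧ FQ t p.1 p.2.2)) ∧ pop m p.2.1 p.2.2) ∧
        (Eve' (talk (fun i => ev i p.2.2) n (σQ p.1 p.2.2 m) (τP p.2.1 p.2.2)).1).out
          (fun i => ev i p.2.2) ≠
        (talk (fun i => ev i p.2.2) n (σQ p.1 p.2.2 m) (τP p.2.1 p.2.2)).2.2)) +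
      L * (cnt (fun p : XQ × G => Cons ev t p.2 ∧ (SQ p.1 p.2 ∧ FQ t p.1 p.2)) *
        cnt (fun p : XP × G => Cons ev t p.2 ∧ pop m p.1 p.2)) ≤
      L * (Nat.card (KN ev t) * cnt (fun p : XQ × XP × G =>
        ((Cons ev t p.2.2 ∧ (SQ p.1 p.2.2 ∧ FQ t p.1 p.2.2)) ∧ pop m p.2.1 p.2.2) ∧
        (talk (fun i => ev i p.2.2) n (σQ p.1 p.2.2 m) (τP p.2.1 p.2.2)).2.1 ≠
        (talk (fun i => ev i p.2.2) n (σQ p.1 p.2.2 m) (τP p.2.1 p.2.2)).2.2)) +
      L * (Nat.card (KN ev t) * cnt (fun p : XQ × XP × G =>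
        (Cons ev t p.2.2 ∧ (SQ p.1 p.2.2 ∧ FQ t p.1 p.2.2)) ∧ pop m p.2.1 p.2.2)) +
      2 * n * (q * Nat.clog 2 (Nat.card H)) *
        (cnt (fun p : XQ × G => Cons ev t p.2 ∧ (SQ p.1 p.2 ∧ FQ t p.1 p.2)) *
        cnt (fun p : XP × G => Cons ev t p.2 ∧ pop m p.1 p.2)) +
      2 * L * (cnt (fun p : XQ × G => Cons ev t p.2 ∧ (SQ p.1 p.2 ∧ FQ t p.1 p.2)) *
        hits ev (pop m) qP' t (best ev (pop m) qP' (size q L n) t))) := by
    intro m t
    by_cases hex : ∃ f₁, Cons ev t f₁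
    · obtain ⟨f₁, hf₁⟩ := hex
      obtain ⟨Eve', h1, h2⟩ := ih XQ XP t f₁ hf₁ (fun y f => SQ y f ∧ FQ t y f) qQ
        (fun y f => σQ y f m) (pop m) qP' τP
        (hits ev (pop m) qP' t (best ev (pop m) qP' (size q L n) t))
        (by
          intro y f g h1
          obtain ⟨h2, h3, h4⟩ := hQ y f g h1
          refine ⟨h2, ?_, ?_⟩
          · rw [hFQ]
            simp only [h2, h3]
          · rw [h4])
        (by
          intro x f g h1
          obtain ⟨h2, h3, h4, h5⟩ := hP' x f g h1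
          refine ⟨h2, ?_, h5⟩
          rw [hpop]
          simp only [h3, h4])
        (by
          intro y f
          exact (hWQ y f).2 m)
        (by
          intro x f
          have h2 := hWP x f
          rw [hqP', hτP, List.length_append, length_qs]
          exact h2)
        (best_spec ev (pop m) qP' (size q L n) t)
      exact ⟨Eve', h1, fun _ => h2⟩
    · exact ⟨fun _ => .done (Classical.arbitrary K), fun t' f => by simp [Alg.cost],
        fun h1 => absurd h1 hex⟩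
  choose Eve' hcost' hineq' using hIH
  choose Eve₀ hEve₀ using fun (m : M) (t' : List M) => hT1 m K (fun t => Eve' m t t')
  obtain ⟨Eve, hEve1, hEve2⟩ : ∃ Eve : List M → Alg I H K,
      Eve [] = .done (Classical.arbitrary K) ∧ ∀ m t', Eve (m :: t') = Eve₀ m t' :=
    ⟨fun t => match t with
      | [] => .done (Classical.arbitrary K)
      | m :: t' => Eve₀ m t', rfl, fun _ _ => rfl⟩
  have hout : ∀ m t' f, (Eve₀ m t').out (fun i => ev i f) =
      (Eve' m (T m f) t').out (fun i => ev i f) := fun m t' f => (hEve₀ m t' f).1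
  refine ⟨Eve, ?_, ?_⟩
  · intro t f
    cases t with
    | nil =>
      rw [hEve1]
      simp [Alg.cost]
    | cons m t' =>
      rw [hEve2]
      exact (hEve₀ m t' f).2.trans (Nat.add_le_add_left (hcost' m (T m f) t' f) _)
  simp only [htalk, hEve2, hout]
  obtain ⟨key, hkey⟩ : ∃ key : XP × G → M × List (I × H),
    key = fun p => (msg p.1 p.2, T (msg p.1 p.2) p.2) := ⟨_, rfl⟩
  obtain ⟨S, hS⟩ : ∃ S, S = (univ.filter (fun p : XP × G => Cons ev kn p.2)).image key :=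
    ⟨_, rfl⟩
  have hmem : ∀ p : XP × G, Cons ev kn p.2 → key p ∈ S := fun p hp => by
    rw [hS]
    exact mem_image_of_mem key (by simp [hp])
  have hfib : ∀ τ ∈ S, ∃ new f₁, τ.2 = kn ++ new ∧ new.length ≤ L * size q L n ∧
      Cons ev (kn ++ new) f₁ ∧
      ∀ p : XP × G, (key p = τ ∧ Cons ev kn p.2) ↔ (Cons ev τ.2 p.2 ∧ msg p.1 p.2 = τ.1) := by
    intro τ hτ
    rw [hS, mem_image] at hτ
    obtain ⟨⟨x₀, f₁⟩, h1, h2⟩ := hτ
    rw [mem_filter] at h1
    obtain ⟨new, h3, h4, h5⟩ := hT2 (msg x₀ f₁) f₁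
    have h6 : τ = (msg x₀ f₁, T (msg x₀ f₁) f₁) := by rw [← h2, hkey]
    refine ⟨new, f₁, ?_, h4, cons_append.2 ⟨h1.2, h5⟩, ?_⟩
    · rw [h6]
      exact h3
    · rintro ⟨x, f⟩
      rw [h6, hkey]
      simp only [Prod.mk.injEq]
      constructor
      · rintro ⟨⟨h7, h8⟩, h9⟩
        refine ⟨?_, h7⟩
        rw [← h8, h7]
        obtain ⟨new', h10, _, h11⟩ := hT2 (msg x₀ f₁) f
        rw [h10]
        exact cons_append.2 ⟨h9, h11⟩
      · rintro ⟨h7, h8⟩
        rw [h8]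
        refine ⟨⟨rfl, hT3 _ _ _ h7⟩, ?_⟩
        rw [h3, cons_append] at h7
        exact h7.1
  -- decomposition of the real executions
  have hdec : ∀ W : XP → XQ → G → M → List (I × H) → Prop,
      cnt (fun p : XP × XQ × G => ((Cons ev kn p.2.2 ∧ SP p.1 p.2.2) ∧ SQ p.2.1 p.2.2) ∧
        W p.1 p.2.1 p.2.2 (msg p.1 p.2.2) (T (msg p.1 p.2.2) p.2.2)) =
      ∑ τ ∈ S, cnt (fun p : XP × XQ × G =>
        ((Cons ev τ.2 p.2.2 ∧ pop τ.1 p.1 p.2.2) ∧ SQ p.2.1 p.2.2) ∧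
        W p.1 p.2.1 p.2.2 τ.1 τ.2) := by
    intro W
    rw [cnt_fiber (fun p : XP × XQ × G => key (p.1, p.2.2)) S _
      (fun p hp => hmem (p.1, p.2.2) hp.1.1.1)]
    apply sum_congr rfl
    intro τ hτ
    obtain ⟨_, _, _, _, _, h1⟩ := hfib τ hτ
    apply cnt_congr
    rintro ⟨x, y, f⟩
    have h2 := h1 (x, f)
    rw [hpop]
    dsimp only at h2 ⊢
    constructor
    · rintro ⟨h3, ⟨⟨h4, h5⟩, h6⟩, h7⟩
      obtain ⟨h8, h9⟩ := h2.1 ⟨h3, h4⟩
      refine ⟨⟨⟨h8, h5, h9⟩, h6⟩, ?_⟩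
      rw [← h3, hkey]
      exact h7
    · rintro ⟨⟨⟨h8, h5, h9⟩, h6⟩, h7⟩
      obtain ⟨h3, h4⟩ := h2.2 ⟨h8, h9⟩
      refine ⟨h3, ⟨⟨h4, h5⟩, h6⟩, ?_⟩
      rw [← h3, hkey] at h7
      exact h7
  have hM : cnt (fun p : XP × XQ × G =>
        (Cons ev kn p.2.2 ∧ SP p.1 p.2.2) ∧ SQ p.2.1 p.2.2) =
      ∑ τ ∈ S, cnt (fun p : XP × XQ × G =>
        (Cons ev τ.2 p.2.2 ∧ pop τ.1 p.1 p.2.2) ∧ SQ p.2.1 p.2.2) := by
    have h1 := hdec (fun _ _ _ _ _ => True)
    simp only [and_true] at h1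
    exact h1
  have hnP : cnt (fun p : XP × G => Cons ev kn p.2 ∧ SP p.1 p.2) =
      ∑ τ ∈ S, cnt (fun p : XP × G => Cons ev τ.2 p.2 ∧ pop τ.1 p.1 p.2) := by
    rw [cnt_fiber key S _ (fun p hp => hmem p hp.1)]
    apply sum_congr rfl
    intro τ hτ
    obtain ⟨_, _, _, _, _, h1⟩ := hfib τ hτ
    apply cnt_congr
    intro p
    rw [hpop]
    constructor
    · rintro ⟨h3, h4, h5⟩
      obtain ⟨h8, h9⟩ := (h1 p).1 ⟨h3, h4⟩
      exact ⟨h8, h5, h9⟩
    · rintro ⟨h8, h5, h9⟩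
      obtain ⟨h3, h4⟩ := (h1 p).2 ⟨h8, h9⟩
      exact ⟨h3, h4, h5⟩
  have hE : cnt (fun p : XP × G => (Cons ev kn p.2 ∧ SP p.1 p.2) ∧
        Hit ev (pop (msg p.1 p.2)) qP' (size q L n) (T (msg p.1 p.2) p.2) p.1 p.2) =
      ∑ τ ∈ S, hits ev (pop τ.1) qP' τ.2 (best ev (pop τ.1) qP' (size q L n) τ.2) := by
    rw [cnt_fiber key S _ (fun p hp => hmem p hp.1.1)]
    apply sum_congr rfl
    intro τ hτ
    obtain ⟨_, _, _, _, _, h1⟩ := hfib τ hτ
    apply cnt_congr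
    intro p
    constructor
    · rintro ⟨h3, ⟨h4, h5⟩, h6⟩
      obtain ⟨h8, h9⟩ := (h1 p).1 ⟨h3, h4⟩
      refine ⟨h8, ?_, ?_⟩
      · rw [hpop]
        exact ⟨h5, h9⟩
      · rw [← h3, hkey]
        exact h6
    · rintro ⟨h8, h5, h6⟩
      rw [hpop] at h5
      obtain ⟨h3, h4⟩ := (h1 p).2 ⟨h8, h5.2⟩
      refine ⟨h3, ⟨h4, h5.1⟩, ?_⟩
      rw [← h3, hkey] at h6
      exact h6
  have hEle : L * ∑ τ ∈ S, hits ev (pop τ.1) qP' τ.2
        (best ev (pop τ.1) qP' (size q L n) τ.2) ≤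
      q * Nat.clog 2 (Nat.card H) * cnt (fun p : XP × G => Cons ev kn p.2 ∧ SP p.1 p.2) := by
    rw [← hE, cnt_fiber (fun p : XP × G => msg p.1 p.2)
      (univ.image (fun p : XP × G => msg p.1 p.2)) _ (fun p _ => mem_image_of_mem _ (mem_univ p)),
      cnt_fiber (fun p : XP × G => msg p.1 p.2)
      (univ.image (fun p : XP × G => msg p.1 p.2)) (fun p => Cons ev kn p.2 ∧ SP p.1 p.2)
      (fun p _ => mem_image_of_mem _ (mem_univ p)), mul_sum, mul_sum]
    apply sum_le_sum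
    intro m _
    refine le_trans (Nat.mul_le_mul_left _ (cnt_mono ?_)) ((hT4 m).trans
      (Nat.mul_le_mul_left _ (cnt_mono ?_)))
    · rintro p ⟨h2, ⟨h3, h4⟩, h5⟩
      refine ⟨⟨h3, ?_⟩, ?_⟩
      · rw [hpop]
        exact ⟨h4, h2⟩
      · rw [← h2]
        exact h5
    · rintro p ⟨h3, h4⟩
      rw [hpop] at h4
      exact ⟨h4.2, h3, h4.1⟩
  -- one value of the knowledge
  have hone : ∀ τ ∈ S,
      L * (Nat.card (KN ev kn) * cnt (fun p : XP × XQ × G =>
        ((Cons ev τ.2 p.2.2 ∧ pop τ.1 p.1 p.2.2) ∧ SQ p.2.1 p.2.2) ∧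
        (Eve' τ.1 τ.2 (talk (fun i => ev i p.2.2) n (σQ p.2.1 p.2.2 τ.1)
          (τP p.1 p.2.2)).1).out (fun i => ev i p.2.2) ≠
        (talk (fun i => ev i p.2.2) n (σQ p.2.1 p.2.2 τ.1) (τP p.1 p.2.2)).2.2)) +
      L * (cnt (fun p : XP × G => Cons ev τ.2 p.2 ∧ pop τ.1 p.1 p.2) *
        cnt (fun p : XQ × G => Cons ev kn p.2 ∧ SQ p.1 p.2)) ≤
      L * (Nat.card (KN ev kn) * cnt (fun p : XP × XQ × G =>
        ((Cons ev τ.2 p.2.2 ∧ pop τ.1 p.1 p.2.2) ∧ SQ p.2.1 p.2.2) ∧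
        (talk (fun i => ev i p.2.2) n (σQ p.2.1 p.2.2 τ.1) (τP p.1 p.2.2)).2.1 ≠
        (talk (fun i => ev i p.2.2) n (σQ p.2.1 p.2.2 τ.1) (τP p.1 p.2.2)).2.2)) +
      L * (Nat.card (KN ev kn) * cnt (fun p : XP × XQ × G =>
        (Cons ev τ.2 p.2.2 ∧ pop τ.1 p.1 p.2.2) ∧ SQ p.2.1 p.2.2)) +
      2 * n * (q * Nat.clog 2 (Nat.card H)) *
        (cnt (fun p : XP × G => Cons ev τ.2 p.2 ∧ pop τ.1 p.1 p.2) *
        cnt (fun p : XQ × G => Cons ev kn p.2 ∧ SQ p.1 p.2)) +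
      2 * L * (cnt (fun p : XQ × G => Cons ev kn p.2 ∧ SQ p.1 p.2) *
        hits ev (pop τ.1) qP' τ.2 (best ev (pop τ.1) qP' (size q L n) τ.2)) +
      L * (cnt (fun p : XP × G => Cons ev τ.2 p.2 ∧ pop τ.1 p.1 p.2) * h) := by
    intro τ hτ
    obtain ⟨new, f₁, h1, h2, h3, _⟩ := hfib τ hτ
    have h4 := hineq' τ.1 τ.2 ⟨f₁, by rw [h1]; exact h3⟩
    have hFQ' : ∀ y f, FQ τ.2 y f ↔
        Free (KN ev kn) (Ann ev (qQ y f)) (Ann ev (new.map Prod.fst)) := by
      intro y f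
      rw [hFQ]
      dsimp only
      rw [h1, List.drop_left]
    have h5 := free_part ev kn new f₁ h3 SQ qQ (fun y f g h6 => ⟨(hQ y f g h6).1, (hQ y f g h6).2.1⟩)
    rw [← h1] at h5
    simp only [← hFQ'] at h5
    refine arith (card_KN_pos ev τ.2) h5 h4 ?_ ?_
      (swap_le (Cons ev τ.2) (pop τ.1) SQ (FQ τ.2) (fun x y f =>
        (Eve' τ.1 τ.2 (talk (fun i => ev i f) n (σQ y f τ.1) (τP x f)).1).out
          (fun i => ev i f) ≠ (talk (fun i => ev i f) n (σQ y f τ.1) (τP x f)).2.2))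
      (swap_ge (Cons ev τ.2) (pop τ.1) SQ (FQ τ.2) (fun x y f =>
        (talk (fun i => ev i f) n (σQ y f τ.1) (τP x f)).2.1 ≠
          (talk (fun i => ev i f) n (σQ y f τ.1) (τP x f)).2.2))
      (swap_eq (Cons ev τ.2) (pop τ.1) SQ (FQ τ.2))
    · exact cnt_mono fun p hp => ⟨hp.1, hp.2.1⟩
    · rw [cnt_split (fun p : XQ × G => Cons ev kn p.2 ∧ SQ p.1 p.2)
        (fun p => FQ τ.2 p.1 p.2)]
      apply Nat.add_le_add
      · exact cnt_mono fun p hp => ⟨hp.1.1, hp.1.2, hp.2⟩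
      · refine le_trans (cnt_mono ?_) (hh (new.map Prod.fst) ?_)
        · rintro p ⟨⟨h6, h7⟩, h8⟩
          rw [hFQ'] at h8
          exact ⟨h6, h7, h8⟩
        · rw [List.length_map]
          refine h2.trans (le_of_eq ?_)
          rw [size, size, pow_succ]
          ring
  have hsum := sum_le_sum hone
  simp only [sum_add_distrib, ← mul_sum, ← sum_mul] at hsum
  rw [← hM, ← hnP] at hsum
  have hd1 := hdec (fun x y f m t => (Eve' m t (talk (fun i => ev i f) n (σQ y f m)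
    (τP x f)).1).out (fun i => ev i f) ≠ (talk (fun i => ev i f) n (σQ y f m) (τP x f)).2.2)
  have hd2 := hdec (fun x y f m t => (talk (fun i => ev i f) n (σQ y f m) (τP x f)).2.1 ≠
    (talk (fun i => ev i f) n (σQ y f m) (τP x f)).2.2)
  rw [hd1, hd2]
  refine hsum.trans ?_
  clear hsum hd1 hd2 hone
  generalize (∑ i ∈ S, hits ev (pop i.1) qP' i.2 (best ev (pop i.1) qP' (size q L n) i.2)) = sh
    at *
  generalize cnt (fun p : XP × G => Cons ev kn p.2 ∧ SP p.1 p.2) = nP at *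
  generalize cnt (fun p : XQ × G => Cons ev kn p.2 ∧ SQ p.1 p.2) = nQ at *
  generalize q * Nat.clog 2 (Nat.card H) = c at *
  have e1 : 2 * L * (nQ * sh) ≤ 2 * c * (nP * nQ) := by
    calc 2 * L * (nQ * sh) = 2 * nQ * (L * sh) := by ring
      _ ≤ 2 * nQ * (c * nP) := Nat.mul_le_mul_left _ hEle
      _ = 2 * c * (nP * nQ) := by ring
  have e2 : 2 * (n + 1) * c * (nP * nQ) = 2 * n * c * (nP * nQ) + 2 * c * (nP * nQ) := by ring
  have e3 : L * (nP * h) ≤ 2 * L * (nP * h) := by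
    rw [mul_assoc 2]
    omega
  rw [e2]
  omega

theorem claim (ev : I → G →+ H) (q L : ℕ) (hL : 0 < L) : ∀ n, Claim ev M K q L n := by
  intro n
  induction n with
  | zero => exact claim_zero ev q L
  | succ n ih => exact claim_succ ev q L n hL ih

/-- The attack on key agreement with errors. -/
theorem keyAgreementError (ev : I → G →+ H) (q L : ℕ) (hL : 0 < L) (n : ℕ) {RA RB : Type}
    [Fintype RA] [Fintype RB] (A : RA → Strat I H M K n true) (B : RB → Strat I H M K n false)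
    (hA : ∀ r (f : G), Within (fun i => ev i f) q n true (A r) 0)
    (hB : ∀ s (f : G), Within (fun i => ev i f) q n false (B s) 0) :
    ∃ Eve : List M → Alg I H K,
      (∀ t (f : G), (Eve t).cost (fun i => ev i f) ≤ total q L n) ∧
      L * cnt (fun p : RA × RB × G =>
        (Eve (talk (fun i => ev i p.2.2) n (A p.1) (B p.2.1)).1).out (fun i => ev i p.2.2) ≠
        (talk (fun i => ev i p.2.2) n (A p.1) (B p.2.1)).2.2) ≤
      L * cnt (fun p : RA × RB × G =>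
        (talk (fun i => ev i p.2.2) n (A p.1) (B p.2.1)).2.1 ≠
        (talk (fun i => ev i p.2.2) n (A p.1) (B p.2.1)).2.2) +
      2 * n * (q * Nat.clog 2 (Nat.card H)) * Fintype.card (RA × RB × G) := by
  have hc0 : ∀ f : G, Cons ev ([] : List (I × H)) f := fun f p hp => by simp at hp
  obtain ⟨Eve, h1, h2⟩ := claim ev q L hL n RA RB ([] : List (I × H)) 0 (hc0 0)
    (fun _ _ => True) (fun _ _ => []) (fun r _ => A r)
    (fun _ _ => True) (fun _ _ => []) (fun s _ => B s) 0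
    (fun _ _ _ _ => ⟨rfl, Iff.rfl, rfl⟩) (fun _ _ _ _ => ⟨rfl, Iff.rfl, rfl⟩)
    (fun r f => hA r f) (fun s f => hB s f)
    (by
      intro W _
      rw [Nat.le_zero]
      apply cnt_false
      rintro ⟨s, f⟩ ⟨_, _, h3⟩
      apply h3
      have h4 : Ann ev ([] : List I) = ⊤ := by
        ext g
        simp [mem_Ann]
      rw [Free, h4, inf_top_eq]
      exact sup_eq_left.2 inf_le_left)
  refine ⟨Eve, h1, ?_⟩
  simp only [hc0, true_and] at h2
  have c1 : cnt (fun _ : RA × G => True) = Fintype.card RA * Fintype.card G := by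
    simp [cnt]
  have c2 : cnt (fun _ : RB × G => True) = Fintype.card RB * Fintype.card G := by
    simp [cnt]
  have c3 : cnt (fun _ : RA × RB × G => True) =
      Fintype.card RA * (Fintype.card RB * Fintype.card G) := by
    simp [cnt]
  have c4 : Nat.card (KN ev ([] : List (I × H))) = Fintype.card G := by
    rw [← cnt_cons (hc0 0)]
    simp only [cnt]
    rw [filter_true_of_mem (fun f _ => hc0 f), card_univ]
  rw [c1, c2, c3, c4] at h2
  have hG : 0 < Fintype.card G := Fintype.card_pos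
  have hcard : Fintype.card (RA × RB × G) = Fintype.card RA * (Fintype.card RB * Fintype.card G) := by
    rw [Fintype.card_prod, Fintype.card_prod]
  rw [hcard]
  apply Nat.le_of_mul_le_mul_left _ hG
  generalize cnt (fun p : RA × RB × G =>
        (Eve (talk (fun i => ev i p.2.2) n (A p.1) (B p.2.1)).1).out (fun i => ev i p.2.2) ≠
        (talk (fun i => ev i p.2.2) n (A p.1) (B p.2.1)).2.2) = RE at *
  generalize cnt (fun p : RA × RB × G =>
        (talk (fun i => ev i p.2.2) n (A p.1) (B p.2.1)).2.1 ≠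
        (talk (fun i => ev i p.2.2) n (A p.1) (B p.2.1)).2.2) = RB' at *
  generalize Fintype.card RA = a at *
  generalize Fintype.card RB = b at *
  generalize Fintype.card G = g at *
  generalize q * Nat.clog 2 (Nat.card H) = c at *
  have e1 : L * (g * RE) + L * (g * (a * (b * g))) ≤
      L * (g * RB') + 2 * n * c * (a * g * (b * g)) + L * (g * (a * (b * g))) := by
    calc L * (g * RE) + L * (g * (a * (b * g))) = L * (g * RE) + L * (a * g * (b * g)) := by ring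
      _ ≤ _ := h2
      _ = _ := by ring
  have e2 := Nat.le_of_add_le_add_right e1
  calc g * (L * RE) = L * (g * RE) := by ring
    _ ≤ _ := e2
    _ = _ := by ring

end Pool.Agent.W2helper50.KC
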