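import Pool.Agent.W2helper50.KC.Play

/-!
# Finding an input of one of the parties
-/

set_option autoImplicit false

namespace Pool.Agent.W2helper50.KC

open Finset Classical Pool.Agent.W2helper50.KA Pool.Agent.W2helper50.KB

theorem of_cnt_eq_zero {α : Type} [Fintype α] {P : α → Prop} (h : cnt P = 0) (a : α) : ¬ P a := by
  rw [cnt, card_eq_zero, filter_eq_empty_iff] at h
  exact h (mem_univ a)

variable {G H I M K RR RS : Type} [AddCommGroup G] [AddCommGroup H] [Fintype G] [Finite H]
  [Nonempty K] [Fintype RR] [Fintype RS]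

/-- If the party `R` finds the value `b s` which the party `S` has, then so does Eve. -/
theorem playError (ev : I → G →+ H) (q L : ℕ) (hL : 0 < L) (n : ℕ) (d : Bool)
    (R : RR → Strat I H M K n d) (S : RS → Strat I H M K n (!d)) (b : RS → K)
    (hR : ∀ r (f : G), Within (fun i => ev i f) q n d (R r) 0)
    (hS : ∀ s (f : G), Within (fun i => ev i f) q n (!d) (S s) 0) :
    ∃ Eve : List M → Alg I H K,
      (∀ t (f : G), (Eve t).cost (fun i => ev i f) ≤ n * q * L ^ n) ∧
      L * cnt (fun p : RR × RS × G =>
        (Eve (play (fun i => ev i p.2.2) n d (R p.1) (S p.2.1)).1).out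
          (fun i => ev i p.2.2) ≠ b p.2.1) ≤
      2 * L * cnt (fun p : RR × RS × G =>
        (play (fun i => ev i p.2.2) n d (R p.1) (S p.2.1)).2.1 ≠ b p.2.1) +
      2 * n * (q * Nat.clog 2 (Nat.card H)) * Fintype.card (RR × RS × G) := by
  cases d with
  | true =>
    obtain ⟨Eve, h1, _, h3⟩ := converseError ev q L hL n R
      (fun s => setResult (b s) n false (S s)) hR
      (fun s f => within_setResult _ q (b s) n false (S s) 0 (hS s f))
    refine ⟨Eve, h1, ?_⟩
    simp only [(converse_setResult _ _ n _ _).2] at h3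
    exact h3
  | false =>
    obtain ⟨Eve, h1, h2, _⟩ := converseError ev q L hL n
      (fun s => setResult (b s) n true (S s)) R
      (fun s f => within_setResult _ q (b s) n true (S s) 0 (hS s f)) hR
    refine ⟨Eve, h1, ?_⟩
    simp only [(converse_setResult _ _ n _ _).1] at h2
    have c1 : Fintype.card (RS × RR × G) = Fintype.card (RR × RS × G) := by
      simp only [Fintype.card_prod]
      ring
    rw [cnt_swap (fun p : RS × RR × G => (Eve (converse (fun i => ev i p.2.2) n (S p.1)
        (R p.2.1)).1).out (fun i => ev i p.2.2) ≠ b p.1),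
      cnt_swap (fun p : RS × RR × G => b p.1 ≠ (converse (fun i => ev i p.2.2) n (S p.1)
        (R p.2.1)).2.2), c1] at h2
    simp only [play]
    have c2 : cnt (fun p : RR × RS × G =>
        (converse (fun i => ev i p.2.2) n (S p.2.1) (R p.1)).2.2 ≠ b p.2.1) =
        cnt (fun p : RR × RS × G =>
        b p.2.1 ≠ (converse (fun i => ev i p.2.2) n (S p.2.1) (R p.1)).2.2) :=
      cnt_congr fun p => ne_comm
    rw [c2]
    exact h2

end Pool.Agent.W2helper50.KC
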