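import Pool.Agent.W2helper50.KC.Main
import Pool.Agent.W2helper50.KC.Conv

/-!
# Key agreement and conversations
-/

set_option autoImplicit false

namespace Pool.Agent.W2helper50.KC

open Finset Classical Pool.Agent.W2helper50.KA Pool.Agent.W2helper50.KB

section

variable {I H M K J : Type}

theorem converse_talk (o : I → H) : ∀ (n : ℕ) (P : Strat I H M K n true)
    (Q : Strat I H M K n false),
    (converse o n P Q).1 = (talk o n P Q).1 ∧
    (Even n → (converse o n P Q).2 = (talk o n P Q).2) ∧
    (¬ Even n → (converse o n P Q).2 = ((talk o n P Q).2.2, (talk o n P Q).2.1)) := by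
  intro n
  induction n with
  | zero =>
    intro P Q
    exact ⟨rfl, fun _ => rfl, fun h => absurd Even.zero h⟩
  | succ n ih =>
    intro P Q
    obtain ⟨h1, h2, h3⟩ := ih (Q (Alg.out (P : Alg I H (M × Strat I H M K n false)) o).1)
      (Alg.out (P : Alg I H (M × Strat I H M K n false)) o).2
    rw [converse, talk]
    refine ⟨?_, ?_, ?_⟩
    · simp only [h1]
    · intro he
      have hn : ¬ Even n := fun h => by
        rw [Nat.even_add_one] at he
        exact he h
      simp only [h3 hn]
    · intro he
      have hn : Even n := by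
        rw [Nat.even_add_one, not_not] at he
        exact he
      simp only [h2 hn]

/-- Change the result of an algorithm. -/
def amap (φ : K → J) : Alg I H K → Alg I H J
  | .done k => .done (φ k)
  | .ask i c => .ask i (fun h => amap φ (c h))

theorem amap_out (φ : K → J) (P : Alg I H K) (o : I → H) : (amap φ P).out o = φ (P.out o) := by
  induction P with
  | done k => rfl
  | ask i c ih => simp only [amap, Alg.out, ih]

theorem amap_cost (φ : K → J) (P : Alg I H K) (o : I → H) : (amap φ P).cost o = P.cost o := by
  induction P with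
  | done k => rfl
  | ask i c ih => simp only [amap, Alg.cost, ih]

/-- The same strategy with another result. -/
def setResult (k : K) : (n : ℕ) → (d : Bool) → Strat I H M K n d → Strat I H M K n d
  | 0, true, P => amap (fun _ => k) (P : Alg I H K)
  | 0, false, _ => k
  | n + 1, true, P => amap (fun x => (x.1, setResult k n false x.2))
      (P : Alg I H (M × Strat I H M K n false))
  | n + 1, false, Q => fun m => setResult k n true (Q m)

theorem converse_setResult (o : I → H) (k : K) : ∀ (n : ℕ) (P : Strat I H M K n true)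
    (Q : Strat I H M K n false),
    converse o n (setResult k n true P) Q =
      ((converse o n P Q).1, k, (converse o n P Q).2.2) ∧
    converse o n P (setResult k n false Q) =
      ((converse o n P Q).1, (converse o n P Q).2.1, k) := by
  intro n
  induction n with
  | zero =>
    intro P Q
    refine ⟨?_, rfl⟩
    simp only [setResult, converse, amap_out]
  | succ n ih =>
    intro P Q
    refine ⟨?_, ?_⟩
    · simp only [setResult, converse, amap_out]
      rw [(ih _ _).2]
    · simp only [setResult, converse]
      rw [(ih _ _).1]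

theorem within_setResult (o : I → H) (q : ℕ) (k : K) : ∀ (n : ℕ) (d : Bool)
    (S : Strat I H M K n d) (c : ℕ), Within o q n d S c → Within o q n d (setResult k n d S) c
  | 0, true, P, c, h => by
    simp only [setResult, Within, amap_cost]
    exact h
  | 0, false, _, c, h => h
  | n + 1, true, P, c, h => by
    simp only [setResult, Within, amap_cost, amap_out]
    exact within_setResult o q k n false _ _ h
  | n + 1, false, Q, c, h => ⟨h.1, fun m => within_setResult o q k n true _ _ (h.2 m)⟩

end

theorem total_le (q L : ℕ) (hL : 0 < L) : ∀ n, total q L n ≤ n * q * L ^ n := by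
  intro n
  induction n with
  | zero => simp [total]
  | succ n ih =>
    have h1 : n * q * L ^ n ≤ n * q * L ^ (n + 1) :=
      Nat.mul_le_mul_left _ (Nat.pow_le_pow_right hL (Nat.le_succ n))
    calc total q L (n + 1) = L * size q L n + total q L n := rfl
      _ ≤ L * (q * L ^ n) + n * q * L ^ (n + 1) := Nat.add_le_add_left (ih.trans h1) _
      _ = (n + 1) * q * L ^ (n + 1) := by rw [pow_succ]; ring

section

variable {G H I M K RP RQ : Type} [AddCommGroup G] [AddCommGroup H] [Fintype G] [Finite H]
  [Nonempty K] [Fintype RP] [Fintype RQ]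

/-- Key agreement with errors: Eve finds both keys. -/
theorem converseError (ev : I → G →+ H) (q L : ℕ) (hL : 0 < L) (n : ℕ)
    (A : RP → Strat I H M K n true) (B : RQ → Strat I H M K n false)
    (hA : ∀ r (f : G), Within (fun i => ev i f) q n true (A r) 0)
    (hB : ∀ s (f : G), Within (fun i => ev i f) q n false (B s) 0) :
    ∃ Eve : List M → Alg I H K,
      (∀ t (f : G), (Eve t).cost (fun i => ev i f) ≤ n * q * L ^ n) ∧
      L * cnt (fun p : RP × RQ × G =>
        (Eve (converse (fun i => ev i p.2.2) n (A p.1) (B p.2.1)).1).out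
          (fun i => ev i p.2.2) ≠ (converse (fun i => ev i p.2.2) n (A p.1) (B p.2.1)).2.1) ≤
      2 * L * cnt (fun p : RP × RQ × G =>
        (converse (fun i => ev i p.2.2) n (A p.1) (B p.2.1)).2.1 ≠
        (converse (fun i => ev i p.2.2) n (A p.1) (B p.2.1)).2.2) +
      2 * n * (q * Nat.clog 2 (Nat.card H)) * Fintype.card (RP × RQ × G) ∧
      L * cnt (fun p : RP × RQ × G =>
        (Eve (converse (fun i => ev i p.2.2) n (A p.1) (B p.2.1)).1).out
          (fun i => ev i p.2.2) ≠ (converse (fun i => ev i p.2.2) n (A p.1) (B p.2.1)).2.2) ≤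
      2 * L * cnt (fun p : RP × RQ × G =>
        (converse (fun i => ev i p.2.2) n (A p.1) (B p.2.1)).2.1 ≠
        (converse (fun i => ev i p.2.2) n (A p.1) (B p.2.1)).2.2) +
      2 * n * (q * Nat.clog 2 (Nat.card H)) * Fintype.card (RP × RQ × G) := by
  obtain ⟨Eve, h1, h2⟩ := keyAgreementError ev q L hL n A B hA hB
  refine ⟨Eve, fun t f => (h1 t f).trans (total_le q L hL n), ?_⟩
  -- a general fact
  have gen : ∀ (X Y Z : RP × RQ × G → K),
      cnt (fun p => X p ≠ Z p) ≤ cnt (fun p => X p ≠ Y p) + cnt (fun p => Y p ≠ Z p) := by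
    intro X Y Z
    rw [cnt_split (fun p => X p ≠ Z p) (fun p => X p ≠ Y p)]
    apply Nat.add_le_add
    · exact cnt_mono fun p hp => hp.2
    · apply cnt_mono
      rintro p ⟨h3, h4⟩
      rw [not_not] at h4
      rw [← h4]
      exact h3
  by_cases hn : Even n
  · have e1 : ∀ p : RP × RQ × G, talk (fun i => ev i p.2.2) n (A p.1) (B p.2.1) =
        converse (fun i => ev i p.2.2) n (A p.1) (B p.2.1) := by
      intro p
      obtain ⟨h3, h4, _⟩ := converse_talk (fun i => ev i p.2.2) n (A p.1) (B p.2.1)
      exact (Prod.ext h3 (h4 hn)).symm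
    simp only [e1] at h2
    have g1 := gen (fun p => (Eve (converse (fun i => ev i p.2.2) n (A p.1) (B p.2.1)).1).out
      (fun i => ev i p.2.2)) (fun p => (converse (fun i => ev i p.2.2) n (A p.1) (B p.2.1)).2.2)
      (fun p => (converse (fun i => ev i p.2.2) n (A p.1) (B p.2.1)).2.1)
    have g2 : cnt (fun p : RP × RQ × G =>
        (converse (fun i => ev i p.2.2) n (A p.1) (B p.2.1)).2.2 ≠
        (converse (fun i => ev i p.2.2) n (A p.1) (B p.2.1)).2.1) =
        cnt (fun p : RP × RQ × G =>
        (converse (fun i => ev i p.2.2) n (A p.1) (B p.2.1)).2.1 ≠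
        (converse (fun i => ev i p.2.2) n (A p.1) (B p.2.1)).2.2) :=
      cnt_congr fun p => ne_comm
    rw [g2] at g1
    have g3 := Nat.mul_le_mul_left L g1
    rw [mul_add] at g3
    constructor
    · rw [mul_assoc 2 L]
      omega
    · rw [mul_assoc 2 L]
      omega
  · have e1 : ∀ p : RP × RQ × G, talk (fun i => ev i p.2.2) n (A p.1) (B p.2.1) =
        ((converse (fun i => ev i p.2.2) n (A p.1) (B p.2.1)).1,
          (converse (fun i => ev i p.2.2) n (A p.1) (B p.2.1)).2.2,
          (converse (fun i => ev i p.2.2) n (A p.1) (B p.2.1)).2.1) := by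
      intro p
      obtain ⟨h3, _, h4⟩ := converse_talk (fun i => ev i p.2.2) n (A p.1) (B p.2.1)
      rw [h3, h4 hn]
    simp only [e1] at h2
    have g1 := gen (fun p => (Eve (converse (fun i => ev i p.2.2) n (A p.1) (B p.2.1)).1).out
      (fun i => ev i p.2.2)) (fun p => (converse (fun i => ev i p.2.2) n (A p.1) (B p.2.1)).2.1)
      (fun p => (converse (fun i => ev i p.2.2) n (A p.1) (B p.2.1)).2.2)
    have g2 : cnt (fun p : RP × RQ × G =>
        (converse (fun i => ev i p.2.2) n (A p.1) (B p.2.1)).2.2 ≠
        (converse (fun i => ev i p.2.2) n (A p.1) (B p.2.1)).2.1) =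
        cnt (fun p : RP × RQ × G =>
        (converse (fun i => ev i p.2.2) n (A p.1) (B p.2.1)).2.1 ≠
        (converse (fun i => ev i p.2.2) n (A p.1) (B p.2.1)).2.2) :=
      cnt_congr fun p => ne_comm
    rw [g2] at h2
    have g3 := Nat.mul_le_mul_left L g1
    rw [mul_add] at g3
    constructor
    · rw [mul_assoc 2 L]
      omega
    · rw [mul_assoc 2 L]
      omega

end

end Pool.Agent.W2helper50.KC
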