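import Pool.Agent.W2helper50.KA.PK
import Pool.Agent.W2helper50.KC.Play

/-!
# Perfect agreement, any number of messages
-/

set_option autoImplicit false

namespace Pool.Agent.W2helper50.KC

open Pool.Agent.W2helper50.KA

section

variable {I H M K : Type}

/-- The strategy as a strategy in an interactive protocol. -/
def toParty : (n : ℕ) → (d : Bool) → Strat I H M K n d → Party I H M K
  | 0, true, P => Alg.andThen (fun k => .halt k) (P : Alg I H K)
  | 0, false, k => .halt k
  | n + 1, true, P => Alg.andThen (fun x => .send x.1 (toParty n false x.2))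
      (P : Alg I H (M × Strat I H M K n false))
  | n + 1, false, Q => .recv (fun m => toParty n true (Q m))

/-- The messages with alternating flags. -/
def flag : Bool → List M → List (Bool × M)
  | _, [] => []
  | d, m :: t => (d, m) :: flag (!d) t

/-- The conversation is a conversation of the two parties. -/
theorem plays_converse (o : I → H) : ∀ (n : ℕ) (d : Bool) (P : Strat I H M K n true)
    (Q : Strat I H M K n false),
    (∃ qs, Plays d o (toParty n true P) (flag d (converse o n P Q).1) qs
      (converse o n P Q).2.1) ∧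
    (∃ qs, Plays (!d) o (toParty n false Q) (flag d (converse o n P Q).1) qs
      (converse o n P Q).2.2) := by
  intro n
  induction n with
  | zero =>
    intro d P Q
    constructor
    · exact plays_andThen (P : Alg I H K) (.halt _)
    · exact ⟨[], .halt _⟩
  | succ n ih =>
    intro d P Q
    obtain ⟨⟨q1, h1⟩, ⟨q2, h2⟩⟩ := ih (!d)
      (Q (Alg.out (P : Alg I H (M × Strat I H M K n false)) o).1)
      (Alg.out (P : Alg I H (M × Strat I H M K n false)) o).2
    rw [Bool.not_not] at h2
    constructor
    · exact plays_andThen (P : Alg I H (M × Strat I H M K n false)) (.send h2)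
    · refine ⟨q1, ?_⟩
      have h3 : d = !(!d) := (Bool.not_not d).symm
      change Plays (!d) o (.recv (fun m => toParty n true (Q m))) ((d, _) :: flag (!d) _) q1 _
      rw [show (d, (Alg.out (P : Alg I H (M × Strat I H M K n false)) o).1) =
        (!(!d), (Alg.out (P : Alg I H (M × Strat I H M K n false)) o).1) by rw [← h3]]
      exact .recv h1

/-- There is no other conversation of the two parties. -/
theorem converse_plays (o : I → H) : ∀ (n : ℕ) (d : Bool) (P : Strat I H M K n true)
    (Q : Strat I H M K n false) (t : List (Bool × M)) (qa qb : List I) (ka kb : K),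
    Plays d o (toParty n true P) t qa ka → Plays (!d) o (toParty n false Q) t qb kb →
    ka = (converse o n P Q).2.1 ∧ kb = (converse o n P Q).2.2 := by
  intro n
  induction n with
  | zero =>
    intro d P Q t qa qb ka kb h1 h2
    obtain ⟨q1, _, h3⟩ := andThen_plays (P : Alg I H K) h1
    obtain ⟨_, _, h4⟩ := plays_halt h3
    obtain ⟨_, _, h5⟩ := plays_halt h2
    exact ⟨h4, h5⟩
  | succ n ih =>
    intro d P Q t qa qb ka kb h1 h2
    obtain ⟨q1, _, h3⟩ := andThen_plays (P : Alg I H (M × Strat I H M K n false)) h1
    obtain ⟨t1, ht1, h4⟩ := plays_send h3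
    obtain ⟨m, t2, ht2, h5⟩ := plays_recv h2
    rw [ht1, List.cons.injEq, Prod.mk.injEq] at ht2
    obtain ⟨⟨_, hm⟩, ht⟩ := ht2
    subst ht
    rw [← hm] at h5
    have h4' : Plays (!(!d)) o (toParty n false
      (Alg.out (P : Alg I H (M × Strat I H M K n false)) o).2) t1 q1 ka := by
      rw [Bool.not_not]
      exact h4
    obtain ⟨h6, h7⟩ := ih (!d) _ _ t1 qb q1 kb ka h5 h4'
    exact ⟨h7, h6⟩

theorem within_plays (o : I → H) (q : ℕ) : ∀ (n : ℕ) (e d : Bool) (S : Strat I H M K n e) (c : ℕ)
    (t : List (Bool × M)) (qs : List I) (k : K), Within o q n e S c →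
    Plays d o (toParty n e S) t qs k → c + qs.length ≤ q
  | 0, true, d, S, c, t, qs, k, h1, h2 => by
    obtain ⟨q1, h3, h4⟩ := andThen_plays (S : Alg I H K) h2
    obtain ⟨_, h5, _⟩ := plays_halt h4
    rw [h3, h5]
    exact h1
  | 0, false, d, S, c, t, qs, k, h1, h2 => by
    obtain ⟨_, h5, _⟩ := plays_halt h2
    rw [h5]
    exact h1
  | n + 1, true, d, S, c, t, qs, k, h1, h2 => by
    obtain ⟨q1, h3, h4⟩ := andThen_plays (S : Alg I H (M × Strat I H M K n false)) h2
    obtain ⟨t1, _, h5⟩ := plays_send h4
    have h6 := within_plays o q n false d _ _ _ _ _ h1 h5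
    rw [h3, ← add_assoc]
    exact h6
  | n + 1, false, d, S, c, t, qs, k, h1, h2 => by
    obtain ⟨m, t1, _, h5⟩ := plays_recv h2
    exact within_plays o q n true d _ _ _ _ _ (h1.2 m) h5

end

section

variable {G H I M K RA RB : Type} [AddCommGroup G] [AddCommGroup H] [Finite G] [Finite H]
  [Nonempty K]

omit [Finite G] [Finite H] in
theorem eve_cost (ev : I → G →+ H) (A : RA → Party I H M K) (a : ℕ)
    (hA : ∀ r f t qs k, Plays true (fun i => ev i f) (A r) t qs k → qs.length ≤ a)
    (t : List (Bool × M)) (f : G) : ∀ (n : ℕ) (kn : List (I × H)),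
      (eve ev A t n kn).cost (fun i => ev i f) ≤ 2 * a * n := by
  intro n
  induction n with
  | zero => intro kn; simp [eve, Alg.cost]
  | succ n ih =>
    intro kn
    by_cases h : ∃ p : List I × List I, Two ev A t kn p.1 p.2
    · rw [eve, dif_pos h]
      obtain ⟨r₁, f₁, k₁, r₂, f₂, k₂, hs1, hs2, _⟩ := h.choose_spec
      have l1 := hA r₁ f₁ t _ k₁ hs1.2
      have l2 := hA r₂ f₂ t _ k₂ hs2.2
      rw [(askList_spec _ _ _).2, List.length_append]
      have l3 := ih (kn ++ List.map (fun i => (i, ev i f)) (h.choose.1 ++ h.choose.2))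
      have l4 : 2 * a * (n + 1) = 2 * a * n + 2 * a := by ring
      omega
    · rw [eve, dif_neg h]
      simp [Alg.cost]

theorem keyAgreement' (ev : I → G →+ H) (A : RA → Party I H M K)
    (B : RB → Party I H M K) (a b : ℕ)
    (hA : ∀ r f t qs k, Plays true (fun i => ev i f) (A r) t qs k → qs.length ≤ a)
    (hB : ∀ r f t qs k, Plays false (fun i => ev i f) (B r) t qs k → qs.length ≤ b)
    (hag : ∀ rA rB f t qA kA qB kB, Plays true (fun i => ev i f) (A rA) t qA kA →
      Plays false (fun i => ev i f) (B rB) t qB kB → kA = kB) :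
    ∃ Eve : List (Bool × M) → Alg I H K,
      (∀ t f, (Eve t).cost (fun i => ev i f) ≤ 2 * a * (b * Nat.clog 2 (Nat.card H))) ∧
      ∀ rA rB f t qA kA qB kB,
      Plays true (fun i => ev i f) (A rA) t qA kA →
      Plays false (fun i => ev i f) (B rB) t qB kB →
      (Eve t).out (fun i => ev i f) = kB := by
  refine ⟨fun t => eve ev A t (b * Nat.clog 2 (Nat.card H)) [], ?_, ?_⟩
  · intro t f
    exact eve_cost ev A a hA t f _ _
  intro rA rB f t qA kA qB kB hpA hpB
  apply (eve_spec ev A B a hA hag rA rB f t qA qB kA kB hpA hpB _ _ _ _).1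
  · simp
  · have h1 : (Ann ev qB).relIndex (Ann ev (List.map Prod.fst ([] : List (I × H)))) =
        (Ann ev qB).index := by
      have : Ann ev (List.map Prod.fst ([] : List (I × H))) = ⊤ := by
        ext g
        simp [mem_Ann]
      rw [this, AddSubgroup.relIndex_top_right]
    rw [h1]
    refine (index_Ann_le ev qB).trans ?_
    have h2 : Nat.card H ≤ 2 ^ Nat.clog 2 (Nat.card H) := Nat.le_pow_clog (by norm_num) _
    calc Nat.card H ^ qB.length ≤ (2 ^ Nat.clog 2 (Nat.card H)) ^ qB.length :=
          Nat.pow_le_pow_left h2 _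
      _ = 2 ^ (qB.length * Nat.clog 2 (Nat.card H)) := by rw [← pow_mul, mul_comm]
      _ ≤ 2 ^ (b * Nat.clog 2 (Nat.card H)) :=
          Nat.pow_le_pow_right (by norm_num)
            (Nat.mul_le_mul_right _ (hB rB f t qB kB hpB))

/-- Perfect agreement: Eve always finds the key. -/
theorem conversePerfect (ev : I → G →+ H) (q n : ℕ)
    (A : RA → Strat I H M K n true) (B : RB → Strat I H M K n false)
    (hA : ∀ r (f : G), Within (fun i => ev i f) q n true (A r) 0)
    (hB : ∀ s (f : G), Within (fun i => ev i f) q n false (B s) 0)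
    (hag : ∀ r s (f : G), (converse (fun i => ev i f) n (A r) (B s)).2.1 =
      (converse (fun i => ev i f) n (A r) (B s)).2.2) :
    ∃ Eve : List M → Alg I H K,
      (∀ t (f : G), (Eve t).cost (fun i => ev i f) ≤ 2 * q * (q * Nat.clog 2 (Nat.card H))) ∧
      ∀ r s (f : G), (Eve (converse (fun i => ev i f) n (A r) (B s)).1).out (fun i => ev i f) =
        (converse (fun i => ev i f) n (A r) (B s)).2.2 := by
  obtain ⟨Eve, h1, h2⟩ := keyAgreement' ev (fun r => toParty n true (A r))
    (fun s => toParty n false (B s)) q q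
    (by
      intro r f t qs k h
      have := within_plays _ q n true true (A r) 0 t qs k (hA r f) h
      omega)
    (by
      intro s f t qs k h
      have := within_plays _ q n false false (B s) 0 t qs k (hB s f) h
      omega)
    (by
      intro r s f t qA kA qB kB h3 h4
      obtain ⟨h5, h6⟩ := converse_plays _ n true (A r) (B s) t qA qB kA kB h3 h4
      rw [h5, h6]
      exact hag r s f)
  refine ⟨fun t => Eve (flag true t), fun t f => h1 _ f, ?_⟩
  intro r s f
  obtain ⟨⟨q1, h3⟩, ⟨q2, h4⟩⟩ := plays_converse (fun i => ev i f) n true (A r) (B s)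
  exact h2 r s f _ q1 _ q2 _ h3 h4

/-- If the party `R` always finds the value `b s` which the party `S` has, then so does Eve. -/
theorem playPerfect (ev : I → G →+ H) (q n : ℕ) (d : Bool)
    (R : RA → Strat I H M K n d) (S : RB → Strat I H M K n (!d)) (b : RB → K)
    (hR : ∀ r (f : G), Within (fun i => ev i f) q n d (R r) 0)
    (hS : ∀ s (f : G), Within (fun i => ev i f) q n (!d) (S s) 0)
    (hag : ∀ r s (f : G), (play (fun i => ev i f) n d (R r) (S s)).2.1 = b s) :
    ∃ Eve : List M → Alg I H K,
      (∀ t (f : G), (Eve t).cost (fun i => ev i f) ≤ 2 * q * (q * Nat.clog 2 (Nat.card H))) ∧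
      ∀ r s (f : G), (Eve (play (fun i => ev i f) n d (R r) (S s)).1).out (fun i => ev i f) =
        b s := by
  cases d with
  | true =>
    obtain ⟨Eve, h1, h2⟩ := conversePerfect ev q n R (fun s => setResult (b s) n false (S s)) hR
      (fun s f => within_setResult _ q (b s) n false (S s) 0 (hS s f))
      (by
        intro r s f
        rw [(converse_setResult _ _ n _ _).2]
        exact hag r s f)
    refine ⟨Eve, h1, ?_⟩
    intro r s f
    have h3 := h2 r s f
    rw [(converse_setResult _ _ n _ _).2] at h3
    exact h3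
  | false =>
    obtain ⟨Eve, h1, h2⟩ := conversePerfect ev q n (fun s => setResult (b s) n true (S s)) R
      (fun s f => within_setResult _ q (b s) n true (S s) 0 (hS s f)) hR
      (by
        intro s r f
        rw [(converse_setResult _ _ n _ _).1]
        exact (hag r s f).symm)
    refine ⟨Eve, h1, ?_⟩
    intro r s f
    have h3 := h2 s r f
    rw [(converse_setResult _ _ n _ _).1] at h3
    have h4 := hag r s f
    exact h3.trans h4

end

end Pool.Agent.W2helper50.KC
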